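import Pool.Agent.Work.MP_2738db_nt_Y.Interface3
import Pool.Agent.Work.MP_2738db_nt_Y_helper45.ARQ
import Pool.Agent.Work.MP_2738db_nt_W.TwoLog2

/-!
# Block ARR: `r`-adic two logarithms, rational base
-/

set_option autoImplicit false

namespace Pool.Agent.Work.MP_2738db_nt_Y.helper44

open Finset BigOperators
open Pool.Agent.Work.MP_2738db_nt_W (exists_theta exists_minor abs_det_le nc nc_sum nc_dvd det_val
  choose_bound log_le_tenth)
open Pool.Agent.Work.MP_2738db_nt_Y.helper45 (zero_estQ)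

/-- the quotient `X₁ / X₂` modulo `p ^ M` -/
theorem exists_quot {p M : ℕ} (hp : p.Prime) (hM : 1 ≤ M) {X₁ X₂ Y k₀ ℓ : ℕ}
    (hX₁ : (p : ℤ) ∣ (X₁ : ℤ) - 1) (hX₂ : (p : ℤ) ∣ (X₂ : ℤ) - 1)
    (h : (p : ℤ) ^ M ∣ (X₁ : ℤ) ^ ℓ - (X₂ : ℤ) ^ ℓ * (Y : ℤ) ^ k₀) :
    ∃ X : ℕ, (p : ℤ) ∣ (X : ℤ) - 1 ∧ (p : ℤ) ^ M ∣ (X₁ : ℤ) - X₂ * X ∧
      (p : ℤ) ^ M ∣ (X : ℤ) ^ ℓ - (Y : ℤ) ^ k₀ := by
  have : Fact p.Prime := ⟨hp⟩
  have : NeZero (p ^ M) := ⟨pow_ne_zero _ hp.ne_zero⟩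
  have hcop : Nat.Coprime X₂ (p ^ M) := by
    apply Nat.Coprime.pow_right
    rw [Nat.coprime_comm, hp.coprime_iff_not_dvd]
    intro h1
    have h2 : (p : ℤ) ∣ (X₂ : ℤ) := by exact_mod_cast h1
    have h3 : (p : ℤ) ∣ 1 := by have := dvd_sub h2 hX₂; simpa using this
    have h4 : p ∣ 1 := by exact_mod_cast h3
    exact hp.one_lt.ne' (Nat.dvd_one.mp h4)
  have hu : (X₂ : ZMod (p ^ M)) * ((X₁ : ZMod (p ^ M)) * (X₂ : ZMod (p ^ M))⁻¹) = X₁ := by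
    rw [mul_comm (X₁ : ZMod (p ^ M)), ← mul_assoc, ZMod.coe_mul_inv_eq_one X₂ hcop, one_mul]
  set X : ℕ := ((X₁ : ZMod (p ^ M)) * (X₂ : ZMod (p ^ M))⁻¹).val with hX
  have hXv : (X : ZMod (p ^ M)) = (X₁ : ZMod (p ^ M)) * (X₂ : ZMod (p ^ M))⁻¹ := by
    rw [hX, ZMod.natCast_zmod_val]
  have h2 : (p : ℤ) ^ M ∣ (X₁ : ℤ) - X₂ * X := by
    have h3 : (((X₁ : ℤ) - X₂ * X : ℤ) : ZMod (p ^ M)) = 0 := by
      push_cast
      rw [hXv, hu, sub_self]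
    rw [ZMod.intCast_zmod_eq_zero_iff_dvd] at h3
    exact_mod_cast h3
  have hpM : (p : ℤ) ∣ (p : ℤ) ^ M := dvd_pow_self _ (by omega)
  refine ⟨X, ?_, h2, ?_⟩
  · -- X₂ X ≡ X₁ ≡ 1, X₂ ≡ 1
    have h3 : (p : ℤ) ∣ (X₁ : ℤ) - X₂ * X := hpM.trans h2
    have h4 : (X : ℤ) - 1 = ((X₁ : ℤ) - 1) - ((X₁ : ℤ) - X₂ * X) - ((X₂ : ℤ) - 1) * X := by ring
    rw [h4]
    exact dvd_sub (dvd_sub hX₁ h3) (Dvd.dvd.mul_right hX₂ _)
  · have h3 : (p : ℤ) ^ M ∣ (X₁ : ℤ) ^ ℓ - ((X₂ : ℤ) * X) ^ ℓ :=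
      h2.trans (sub_dvd_pow_sub_pow _ _ _)
    have h4 : (p : ℤ) ^ M ∣ (X₂ : ℤ) ^ ℓ * ((X : ℤ) ^ ℓ - (Y : ℤ) ^ k₀) := by
      have h5 : (X₂ : ℤ) ^ ℓ * ((X : ℤ) ^ ℓ - (Y : ℤ) ^ k₀) =
          ((X₁ : ℤ) ^ ℓ - (X₂ : ℤ) ^ ℓ * (Y : ℤ) ^ k₀) - ((X₁ : ℤ) ^ ℓ - ((X₂ : ℤ) * X) ^ ℓ) := by
        rw [mul_pow]; ring
      rw [h5]
      exact dvd_sub h h3
    have hc : IsCoprime ((p : ℤ) ^ M) ((X₂ : ℤ) ^ ℓ) := by
      have h6 : Nat.Coprime (p ^ M) (X₂ ^ ℓ) := Nat.Coprime.pow_right _ hcop.symm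
      have h7 := Nat.isCoprime_iff_coprime.mpr h6
      push_cast at h7
      exact h7
    exact hc.dvd_of_dvd_mul_left h4

/-- the main determinant inequality, rational base `X₁ / X₂` -/
theorem core_rat {p M : ℕ} (hp : p.Prime) {X₁ X₂ Y k₀ ℓ K L R S Z : ℕ}
    (hX₁0 : 1 ≤ X₁) (hX₂0 : 1 ≤ X₂) (hY0 : 2 ≤ Y) (hcop : Nat.Coprime ℓ k₀)
    (hX₁ : (p : ℤ) ∣ (X₁ : ℤ) - 1) (hX₂ : (p : ℤ) ∣ (X₂ : ℤ) - 1) (hY : (p : ℤ) ∣ (Y : ℤ) - 1)
    (h : (p : ℤ) ^ M ∣ (X₁ : ℤ) ^ ℓ - (X₂ : ℤ) ^ ℓ * (Y : ℤ) ^ k₀)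
    (hR : R ≤ ℓ) (hKL : K * L ≤ R * S) (hK : 1 ≤ K) (hL : 1 ≤ L) (hM : K * L ≤ M)
    (hZ : R * k₀ + (S + L) * ℓ ≤ Z) (B : ℝ) (hB : ∀ k < K, ∀ z ≤ Z, (Nat.choose z k : ℝ) ≤ B) :
    (p : ℝ) ^ (K * K * ∑ l ∈ range L, l) ≤ (K * L).factorial * (B ^ (K * L) *
      (((X₁ * X₂ : ℕ) : ℝ) ^ R * (Y : ℝ) ^ (S + L)) ^ (K * ∑ l ∈ range L, l)) := by
  classical
  have hM1 : 1 ≤ M := le_trans (Nat.mul_pos hK hL) hM
  obtain ⟨X, hXp, hX12, hXY⟩ := exists_quot hp hM1 hX₁ hX₂ h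
  obtain ⟨Θ, hΘ1, hΘX, hΘY⟩ := exists_theta hp hM1 hcop hXp hY hXY
  have hX2Q : (X₂ : ℚ) ≠ 0 := by exact_mod_cast (by omega : X₂ ≠ 0)
  let zz : Fin R × Fin (S + L) → ℕ := fun t => (t.1 : ℕ) * k₀ + (t.2 : ℕ) * ℓ
  have hzz : ∀ t, zz t ≤ Z := by
    intro t
    have h1 : (t.1 : ℕ) * k₀ ≤ R * k₀ := Nat.mul_le_mul_right _ t.1.2.le
    have h2 : (t.2 : ℕ) * ℓ ≤ (S + L) * ℓ := Nat.mul_le_mul_right _ t.2.2.le
    simp only [zz]; omega
  let A : Matrix (Fin K × Fin L) (Fin R × Fin (S + L)) ℤ := Matrix.of fun i t =>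
    (Nat.choose (zz t) i.1 : ℤ) * ((X₁ : ℤ) ^ (t.1 : ℕ) * (Y : ℤ) ^ (t.2 : ℕ)) ^ (i.2 : ℕ) *
      (X₂ : ℤ) ^ ((t.1 : ℕ) * (L - 1 - (i.2 : ℕ)))
  obtain ⟨g, hg⟩ := exists_minor (A.map (Int.castRingHom ℚ)) (by
    intro c hc
    apply zero_estQ ((X₁ : ℚ) / X₂) Y k₀ ℓ (div_ne_zero (by exact_mod_cast (by omega : X₁ ≠ 0)) hX2Q)
      hY0 hcop hR hKL hK hL c
    intro r hr t ht
    have h0 := hc (⟨r, hr⟩, ⟨t, ht⟩)
    have h1 : (X₂ : ℚ) ^ (r * (L - 1)) ≠ 0 := pow_ne_zero _ hX2Q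
    apply mul_left_cancel₀ h1
    rw [mul_zero, ← h0, Finset.mul_sum]
    apply Finset.sum_congr rfl
    intro i _
    have h2 : (X₂ : ℚ) ^ (r * (L - 1)) = (X₂ : ℚ) ^ (r * (L - 1 - (i.2 : ℕ))) * ((X₂ : ℚ) ^ r) ^ (i.2 : ℕ) := by
      rw [← pow_mul, ← pow_add, ← Nat.mul_add]
      congr 2
      have := i.2.2
      omega
    rw [h2]
    simp only [A, zz, Matrix.map_apply, Matrix.of_apply, map_mul, map_pow, map_natCast, div_pow, mul_pow]
    field_simp)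
  have hdet : (A.submatrix id g).det ≠ 0 := by
    intro h0
    apply hg
    have h1 : (A.map (Int.castRingHom ℚ)).submatrix id g = (A.submatrix id g).map (Int.castRingHom ℚ) := rfl
    rw [h1, ← RingHom.mapMatrix_apply, ← RingHom.map_det, h0, map_zero]
  -- p-adic side
  have hpow : ∀ t : Fin R × Fin (S + L), (p : ℤ) ^ M ∣
      (X : ℤ) ^ (t.1 : ℕ) * (Y : ℤ) ^ (t.2 : ℕ) - Θ ^ (zz t) := by
    intro t
    have h1 : (X : ℤ) ≡ Θ ^ k₀ [ZMOD (p : ℤ) ^ M] := (Int.modEq_iff_dvd.mpr (by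
      have := (dvd_neg.mpr hΘX); rwa [neg_sub] at this))
    have h2 : (Y : ℤ) ≡ Θ ^ ℓ [ZMOD (p : ℤ) ^ M] := (Int.modEq_iff_dvd.mpr (by
      have := (dvd_neg.mpr hΘY); rwa [neg_sub] at this))
    have h3 : (X : ℤ) ^ (t.1 : ℕ) * (Y : ℤ) ^ (t.2 : ℕ) ≡ Θ ^ (zz t) [ZMOD (p : ℤ) ^ M] := by
      have h4 : Θ ^ (zz t) = (Θ ^ k₀) ^ (t.1 : ℕ) * (Θ ^ ℓ) ^ (t.2 : ℕ) := by
        rw [← pow_mul, ← pow_mul, ← pow_add]
        congr 1
        simp only [zz]; ring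
      rw [h4]
      exact Int.ModEq.mul (h1.pow _) (h2.pow _)
    exact Int.modEq_iff_dvd.mp h3.symm
  have hpow2 : ∀ (t : Fin R × Fin (S + L)) (l : ℕ), l < L → (p : ℤ) ^ M ∣
      ((X₁ : ℤ) ^ (t.1 : ℕ) * (Y : ℤ) ^ (t.2 : ℕ)) ^ l * (X₂ : ℤ) ^ ((t.1 : ℕ) * (L - 1 - l)) -
        (X₂ : ℤ) ^ ((t.1 : ℕ) * (L - 1)) * (Θ ^ (zz t)) ^ l := by
    intro t l hl
    have h1 : (X₁ : ℤ) ≡ X₂ * X [ZMOD (p : ℤ) ^ M] := (Int.modEq_iff_dvd.mpr (by
      have := (dvd_neg.mpr hX12); rwa [neg_sub] at this))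
    have h2 : (X : ℤ) ^ (t.1 : ℕ) * (Y : ℤ) ^ (t.2 : ℕ) ≡ Θ ^ (zz t) [ZMOD (p : ℤ) ^ M] :=
      (Int.modEq_iff_dvd.mpr (by have := (dvd_neg.mpr (hpow t)); rwa [neg_sub] at this))
    have h3 : ((X₁ : ℤ) ^ (t.1 : ℕ) * (Y : ℤ) ^ (t.2 : ℕ)) ^ l * (X₂ : ℤ) ^ ((t.1 : ℕ) * (L - 1 - l)) ≡
        (((X₂ : ℤ) * X) ^ (t.1 : ℕ) * (Y : ℤ) ^ (t.2 : ℕ)) ^ l *
          (X₂ : ℤ) ^ ((t.1 : ℕ) * (L - 1 - l)) [ZMOD (p : ℤ) ^ M] :=
      Int.ModEq.mul_right _ ((Int.ModEq.mul_right _ (h1.pow _)).pow _)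
    have h4 : (((X₂ : ℤ) * X) ^ (t.1 : ℕ) * (Y : ℤ) ^ (t.2 : ℕ)) ^ l *
        (X₂ : ℤ) ^ ((t.1 : ℕ) * (L - 1 - l)) =
        (X₂ : ℤ) ^ ((t.1 : ℕ) * (L - 1)) * ((X : ℤ) ^ (t.1 : ℕ) * (Y : ℤ) ^ (t.2 : ℕ)) ^ l := by
      have h5 : (X₂ : ℤ) ^ ((t.1 : ℕ) * (L - 1)) =
          ((X₂ : ℤ) ^ (t.1 : ℕ)) ^ l * (X₂ : ℤ) ^ ((t.1 : ℕ) * (L - 1 - l)) := by
        rw [← pow_mul, ← pow_add, ← Nat.mul_add]
        congr 2
        omega
      rw [h5, mul_pow (X₂ : ℤ), mul_pow, mul_pow]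
      ring
    rw [h4] at h3
    have h6 := h3.trans (Int.ModEq.mul_left _ (h2.pow l))
    exact Int.modEq_iff_dvd.mp h6.symm
  have hG : ∀ i j : Fin K × Fin L, ∃ G : ℤ, A i (g j) =
      (∑ m ∈ range (Z + 1), nc (Θ ^ (i.2 : ℕ)) i.1 m *
        ((Nat.choose (zz (g j)) m : ℤ) * (X₂ : ℤ) ^ (((g j).1 : ℕ) * (L - 1)))) + (p : ℤ) ^ M * G := by
    intro i j
    have hs : ∑ m ∈ range (Z + 1), nc (Θ ^ (i.2 : ℕ)) i.1 m *
        ((Nat.choose (zz (g j)) m : ℤ) * (X₂ : ℤ) ^ (((g j).1 : ℕ) * (L - 1))) =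
        ((Nat.choose (zz (g j)) i.1 : ℤ) * (Θ ^ (i.2 : ℕ)) ^ (zz (g j))) *
          (X₂ : ℤ) ^ (((g j).1 : ℕ) * (L - 1)) := by
      rw [nc_sum _ _ _ _ (hzz (g j)), Finset.sum_mul]
      apply Finset.sum_congr rfl
      intro m _
      ring
    rw [hs]
    obtain ⟨G, hG⟩ := hpow2 (g j) (i.2 : ℕ) i.2.2
    refine ⟨(Nat.choose (zz (g j)) i.1 : ℤ) * G, ?_⟩
    simp only [A, Matrix.of_apply]
    have h2 : (Θ ^ (i.2 : ℕ)) ^ (zz (g j)) = (Θ ^ (zz (g j))) ^ (i.2 : ℕ) := by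
      rw [← pow_mul, ← pow_mul, mul_comm]
    rw [h2]
    linear_combination (Nat.choose (zz (g j)) i.1 : ℤ) * hG
  choose G hG using hG
  have hEeq : A.submatrix id g = Matrix.of fun i j =>
      (∑ m ∈ range (Z + 1), nc (Θ ^ (i.2 : ℕ)) i.1 m *
        ((Nat.choose (zz (g j)) m : ℤ) * (X₂ : ℤ) ^ (((g j).1 : ℕ) * (L - 1)))) + (p : ℤ) ^ M * G i j := by
    funext i j
    exact hG i j
  have hcard : Fintype.card (Fin K × Fin L) = K * L := by simp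
  have hV : (p : ℤ) ^ (K * K * ∑ l ∈ range L, l) ∣ (A.submatrix id g).det := by
    rw [hEeq]
    apply det_val (p : ℤ) Z M (K * K * ∑ l ∈ range L, l) (fun i => (i.1 : ℕ))
      (fun i m => nc (Θ ^ (i.2 : ℕ)) i.1 m)
      (fun m j => (Nat.choose (zz (g j)) m : ℤ) * (X₂ : ℤ) ^ (((g j).1 : ℕ) * (L - 1))) G
    · intro i m
      apply nc_dvd
      exact hΘ1.trans (by simpa using sub_dvd_pow_sub_pow Θ 1 (i.2 : ℕ))
    · rw [hcard]; exact hM
    · rw [hcard, Fintype.sum_prod_type]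
      simp only [Finset.sum_const, Finset.card_univ, Fintype.card_fin, smul_eq_mul]
      rw [← Finset.mul_sum, Fin.sum_univ_eq_sum_range (fun k => k) K]
      have h1 := Finset.sum_range_id_mul_two L
      have h2 := Finset.sum_range_id_mul_two K
      rw [Nat.le_div_iff_mul_le (by norm_num)]
      obtain ⟨L', rfl⟩ : ∃ L', L = L' + 1 := ⟨L - 1, by omega⟩
      obtain ⟨K', rfl⟩ : ∃ K', K = K' + 1 := ⟨K - 1, by omega⟩
      simp only [Nat.add_sub_cancel] at h1 h2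
      have h3 : (K' + 1) * (L' + 1) - 1 = K' * L' + K' + L' := by
        have : (K' + 1) * (L' + 1) = K' * L' + K' + L' + 1 := by ring
        omega
      rw [h3]
      nlinarith [h1, h2]
  -- size
  have hX₁R : (1 : ℝ) ≤ X₁ := by exact_mod_cast hX₁0
  have hX₂R : (1 : ℝ) ≤ X₂ := by exact_mod_cast hX₂0
  have hYR : (1 : ℝ) ≤ Y := by exact_mod_cast (by omega : 1 ≤ Y)
  have hBnn : 0 ≤ B := le_trans (by positivity) (hB 0 (by omega) 0 (by omega))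
  have hsize := abs_det_le (A.submatrix id g)
    (fun i => B * ((X₁ : ℝ) ^ R * (Y : ℝ) ^ (S + L)) ^ (i.2 : ℕ) *
      ((X₂ : ℝ) ^ R) ^ (L - 1 - (i.2 : ℕ))) (by
      intro i j
      simp only [A, Matrix.submatrix_apply, Matrix.of_apply, id_eq]
      push_cast
      rw [abs_of_nonneg (by positivity)]
      apply mul_le_mul _ _ (by positivity) (by positivity)
      · apply mul_le_mul (hB _ i.1.2 _ (hzz (g j))) _ (by positivity) hBnn
        apply pow_le_pow_left₀ (by positivity)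
        apply mul_le_mul _ _ (by positivity) (by positivity)
        · exact pow_le_pow_right₀ hX₁R (g j).1.2.le
        · exact pow_le_pow_right₀ hYR (g j).2.2.le
      · rw [← pow_mul]
        exact pow_le_pow_right₀ hX₂R (Nat.mul_le_mul_right _ (g j).1.2.le))
  rw [hcard, Fintype.prod_prod_type] at hsize
  have hrefl : ∑ l ∈ range L, (L - 1 - l) = ∑ l ∈ range L, l := by
    rw [Finset.sum_range_reflect (fun t => t) L]
  have hprod : ∏ _k : Fin K, ∏ l : Fin L, (B * ((X₁ : ℝ) ^ R * (Y : ℝ) ^ (S + L)) ^ (l : ℕ) *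
      ((X₂ : ℝ) ^ R) ^ (L - 1 - (l : ℕ)))
      = B ^ (K * L) * (((X₁ * X₂ : ℕ) : ℝ) ^ R * (Y : ℝ) ^ (S + L)) ^ (K * ∑ l ∈ range L, l) := by
    rw [Finset.prod_const, Finset.card_univ, Fintype.card_fin, Finset.prod_mul_distrib,
      Finset.prod_mul_distrib, Finset.prod_const,
      Finset.card_univ, Fintype.card_fin, Finset.prod_pow_eq_pow_sum, Finset.prod_pow_eq_pow_sum,
      Fin.sum_univ_eq_sum_range (fun l => l) L, Fin.sum_univ_eq_sum_range (fun l => L - 1 - l) L,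
      hrefl, mul_assoc, ← mul_pow, mul_pow, ← pow_mul, ← pow_mul, mul_comm L K,
      mul_comm (∑ l ∈ range L, l) K]
    congr 2
    push_cast
    rw [mul_pow]
    ring
  have hprod' : ∏ i : Fin K, ∏ l : Fin L, (B * ((X₁ : ℝ) ^ R * (Y : ℝ) ^ (S + L)) ^ ((((i, l) : Fin K × Fin L).2 : Fin L) : ℕ) *
      ((X₂ : ℝ) ^ R) ^ (L - 1 - ((((i, l) : Fin K × Fin L).2 : Fin L) : ℕ)))
      = B ^ (K * L) * (((X₁ * X₂ : ℕ) : ℝ) ^ R * (Y : ℝ) ^ (S + L)) ^ (K * ∑ l ∈ range L, l) := hprod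
  rw [hprod'] at hsize
  refine le_trans ?_ hsize
  have h1 : (p : ℤ) ^ (K * K * ∑ l ∈ range L, l) ≤ |(A.submatrix id g).det| :=
    Int.le_of_dvd (abs_pos.mpr hdet) ((dvd_abs _ _).mpr hV)
  exact_mod_cast h1

/-- p-adic two logarithms, rational base `X₁ / X₂`. -/
theorem two_log_rat {p M : ℕ} (hp : p.Prime) {X₁ X₂ Y k₀ ℓ : ℕ}
    (hX₁0 : 1 ≤ X₁) (hX₂0 : 1 ≤ X₂) (hY0 : 2 ≤ Y) (hℓ : 1 ≤ ℓ) (hcop : Nat.Coprime ℓ k₀)
    (hX₁ : (p : ℤ) ∣ (X₁ : ℤ) - 1) (hX₂ : (p : ℤ) ∣ (X₂ : ℤ) - 1) (hY : (p : ℤ) ∣ (Y : ℤ) - 1)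
    (A B : ℝ) (hA : 1 ≤ A) (hB : 1 ≤ B) (hXA : Real.log ((X₁ * X₂ : ℕ) : ℝ) ≤ A)
    (hYB : Real.log Y ≤ B)
    (hk : (k₀ : ℝ) ≤ A * ℓ) (hℓB : 6200 * B * (1 + Real.log ℓ) ≤ ℓ)
    (h : (p : ℤ) ^ M ∣ (X₁ : ℤ) ^ ℓ - (X₂ : ℤ) ^ ℓ * (Y : ℤ) ^ k₀) :
    (M : ℝ) ≤ 4 * 10 ^ 7 * A * B * (1 + Real.log ℓ) ^ 2 := by
  by_contra hcon
  rw [not_le] at hcon
  have hℓ1 : (1 : ℝ) ≤ ℓ := by exact_mod_cast hℓ
  set lam : ℝ := 1 + Real.log ℓ with hlam
  have hlam1 : 1 ≤ lam := by have := Real.log_nonneg hℓ1; linarith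
  set L : ℕ := ⌈60 * lam⌉₊ with hLdef
  have hL1 : 60 * lam ≤ L := Nat.le_ceil _
  have hL2 : (L : ℝ) ≤ 61 * lam := by
    have := Nat.ceil_lt_add_one (show 0 ≤ 60 * lam by linarith)
    rw [← hLdef] at this
    linarith
  have hL60 : (60 : ℝ) ≤ L := by linarith
  have hLnn : (0 : ℝ) ≤ L := by linarith
  have hAB : 1 ≤ A * B := one_le_mul_of_one_le_of_one_le hA hB
  set q : ℝ := L * (A * B) with hq
  have hLq : (L : ℝ) ≤ q := by rw [hq]; exact le_mul_of_one_le_right hLnn hAB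
  have hLA : (L : ℝ) * A ≤ q := by
    rw [hq]
    exact mul_le_mul_of_nonneg_left (le_mul_of_one_le_right (by linarith) hB) hLnn
  have hLB : (L : ℝ) * B ≤ q := by
    rw [hq]
    exact mul_le_mul_of_nonneg_left (le_mul_of_one_le_left (by linarith) hA) hLnn
  have hAq : 60 * A ≤ q := (mul_le_mul_of_nonneg_right hL60 (by linarith)).trans hLA
  have hBq : 60 * B ≤ q := (mul_le_mul_of_nonneg_right hL60 (by linarith)).trans hLB
  have hq60 : 60 ≤ q := by linarith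
  have hq0 : 0 < q := by linarith
  set K : ℕ := ⌈10 ^ 4 * q⌉₊ with hKdef
  have hK1 : 10 ^ 4 * q ≤ K := Nat.le_ceil _
  have hK2 : (K : ℝ) ≤ 10 ^ 4 * q + 1 := by
    have := Nat.ceil_lt_add_one (show 0 ≤ 10 ^ 4 * q by positivity)
    rw [← hKdef] at this
    linarith
  set R : ℕ := ⌈100 * (L * B)⌉₊ + 1 with hRdef
  have hR1 : 100 * (L * B) + 1 ≤ R := by
    rw [hRdef]; push_cast
    have := Nat.le_ceil (100 * (L * B))
    linarith
  have hR2 : (R : ℝ) ≤ 100 * (L * B) + 2 := by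
    rw [hRdef]; push_cast
    have := Nat.ceil_lt_add_one (show 0 ≤ 100 * (L * B) by positivity)
    linarith
  set S : ℕ := ⌈100 * (L * A)⌉₊ with hSdef
  have hS1 : 100 * (L * A) ≤ S := Nat.le_ceil _
  have hS2 : (S : ℝ) ≤ 100 * (L * A) + 1 := by
    have := Nat.ceil_lt_add_one (show 0 ≤ 100 * (L * A) by positivity)
    rw [← hSdef] at this
    linarith
  have hK0 : 1 ≤ K := by
    have : (1 : ℝ) ≤ K := by linarith
    exact_mod_cast this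
  have hL0 : 1 ≤ L := by
    have : (1 : ℝ) ≤ L := by linarith
    exact_mod_cast this
  -- conditions
  have hRℓ : R ≤ ℓ := by
    have h1 : (R : ℝ) ≤ ℓ := by
      have h2 : L * B ≤ 61 * lam * B := mul_le_mul_of_nonneg_right hL2 (by linarith)
      have h3 : 1 ≤ B * lam := one_le_mul_of_one_le_of_one_le hB hlam1
      have h6 : 6200 * B * lam = 6200 * (B * lam) := by ring
      have h7 : 61 * lam * B = 61 * (B * lam) := by ring
      rw [h6] at hℓB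
      rw [h7] at h2
      linarith
    exact_mod_cast h1
  have hKL : K * L ≤ R * S := by
    have h1 : (K : ℝ) * L ≤ R * S := by
      have h2 : (L : ℝ) ≤ 100 * (L * A) := by
        have : (L : ℝ) ≤ L * A := le_mul_of_one_le_right hLnn hA
        have h0 : 0 ≤ (L : ℝ) * A := by positivity
        linarith
      calc (K : ℝ) * L ≤ (10 ^ 4 * q + 1) * L := mul_le_mul_of_nonneg_right hK2 hLnn
        _ = (100 * (L * B)) * (100 * (L * A)) + L := by rw [hq]; ring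
        _ ≤ (100 * (L * B)) * (100 * (L * A)) + 1 * (100 * (L * A)) := by linarith
        _ = (100 * (L * B) + 1) * (100 * (L * A)) := by ring
        _ ≤ R * S := by
            apply mul_le_mul hR1 hS1 (by positivity) (by positivity)
    exact_mod_cast h1
  have hZ : R * k₀ + (S + L) * ℓ ≤ K * ℓ := by
    have h1 : (R : ℝ) * k₀ + (S + L) * ℓ ≤ K * ℓ := by
      have h2 : (R : ℝ) * k₀ ≤ (100 * (L * B) + 2) * A * ℓ := by
        calc (R : ℝ) * k₀ ≤ (100 * (L * B) + 2) * (A * ℓ) :=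
              mul_le_mul hR2 hk (by positivity) (by positivity)
          _ = _ := by ring
      have h3 : (100 * (L * B) + 2) * A + (S + L) ≤ K := by
        have h4 : (100 * (L * B) + 2) * A = 100 * q + 2 * A := by rw [hq]; ring
        rw [h4]
        linarith
      have h5 := mul_le_mul_of_nonneg_right h3 (show (0 : ℝ) ≤ ℓ by linarith)
      have h6 : ((100 * (L * B) + 2) * A + (S + L)) * (ℓ : ℝ) =
          (100 * (L * B) + 2) * A * ℓ + (S + L) * ℓ := by ring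
      rw [h6] at h5
      linarith
    exact_mod_cast h1
  have hM' : K * L ≤ M := by
    have h1 : (K : ℝ) * L ≤ M := by
      have h3 : (L : ℝ) ≤ (A * B) * L ^ 2 := by
        have h4 : (L : ℝ) ≤ 1 * L ^ 2 := by
          rw [one_mul, sq]
          exact le_mul_of_one_le_left hLnn (by linarith)
        exact h4.trans (mul_le_mul_of_nonneg_right hAB (sq_nonneg _))
      calc (K : ℝ) * L ≤ (10 ^ 4 * q + 1) * L := mul_le_mul_of_nonneg_right hK2 hLnn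
        _ = 10 ^ 4 * ((A * B) * L ^ 2) + L := by rw [hq]; ring
        _ ≤ (10 ^ 4 + 1) * ((A * B) * L ^ 2) := by linarith
        _ ≤ (10 ^ 4 + 1) * ((A * B) * (61 * lam) ^ 2) := by
            apply mul_le_mul_of_nonneg_left _ (by norm_num)
            apply mul_le_mul_of_nonneg_left _ (by positivity)
            exact pow_le_pow_left₀ (by positivity) hL2 2
        _ = (10 ^ 4 + 1) * 61 ^ 2 * ((A * B) * lam ^ 2) := by ring
        _ ≤ 4 * 10 ^ 7 * ((A * B) * lam ^ 2) := by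
            apply mul_le_mul_of_nonneg_right _ (by positivity)
            norm_num
        _ = 4 * 10 ^ 7 * A * B * lam ^ 2 := by ring
        _ ≤ M := hcon.le
    exact_mod_cast h1
  have hcore := core_rat hp hX₁0 hX₂0 hY0 hcop hX₁ hX₂ hY h hRℓ hKL hK0 hL0 hM' hZ
    (Real.exp K * (ℓ : ℝ) ^ K) (fun k hk z hz => choose_bound hK0 hℓ hk hz)
  -- take logarithms
  set G : ℕ := ∑ l ∈ range L, l with hG
  set X : ℕ := X₁ * X₂ with hXdef
  have hX0 : 1 ≤ X := Nat.mul_pos hX₁0 hX₂0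
  have hG2 : (G : ℝ) * 2 = L * (L - 1) := by
    have h1 := Finset.sum_range_id_mul_two L
    rw [← hG] at h1
    have h2 : ((G * 2 : ℕ) : ℝ) = ((L * (L - 1) : ℕ) : ℝ) := by rw [h1]
    push_cast [Nat.cast_sub hL0] at h2
    exact h2
  have hG3 : (49 / 100 : ℝ) * L ^ 2 ≤ G := by
    have h1 : (60 : ℝ) * L ≤ L ^ 2 := by
      rw [sq]
      exact mul_le_mul_of_nonneg_right hL60 hLnn
    have h2 : (L : ℝ) * (L - 1) = L ^ 2 - L := by ring
    linarith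
  have hXpos : (0 : ℝ) < X := by exact_mod_cast hX0
  have hYpos : (0 : ℝ) < Y := by exact_mod_cast (by omega : 0 < Y)
  have hℓpos : (0 : ℝ) < ℓ := by linarith
  have hlog := Real.log_le_log (by have := hp.pos; positivity) hcore
  have hfac : Real.log ((K * L).factorial : ℝ) ≤ (K * L : ℝ) * Real.log (K * L) := by
    have h1 : (((K * L).factorial : ℕ) : ℝ) ≤ ((K * L : ℕ) : ℝ) ^ (K * L) := by
      exact_mod_cast Nat.factorial_le_pow (K * L)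
    have h2 := Real.log_le_log (by positivity) h1
    rw [Real.log_pow] at h2
    push_cast at h2
    exact h2
  rw [Real.log_mul (by positivity) (by positivity), Real.log_mul (by positivity) (by positivity),
    Real.log_pow, Real.log_pow, Real.log_pow, Real.log_mul (Real.exp_pos _).ne' (by positivity),
    Real.log_exp, Real.log_pow, Real.log_mul (by positivity) (by positivity), Real.log_pow,
    Real.log_pow] at hlog
  push_cast at hlog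
  have hlog2 : (69 / 100 : ℝ) ≤ Real.log p := by
    have h1 : Real.log 2 ≤ Real.log p := Real.log_le_log (by norm_num) (by exact_mod_cast hp.two_le)
    have h2 := Real.log_two_gt_d9
    linarith
  have hK0' : (0 : ℝ) < K := by exact_mod_cast hK0
  have hL0' : (0 : ℝ) < L := by exact_mod_cast hL0
  have hG0 : (0 : ℝ) ≤ G := by positivity
  -- left side
  have hleft : (69 / 100 : ℝ) * (K * K * G) ≤ (K * K * G) * Real.log p := by
    rw [mul_comm]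
    exact mul_le_mul_of_nonneg_left hlog2 (by positivity)
  -- exponent part
  have hexp : (R : ℝ) * Real.log X + (S + L) * Real.log Y ≤ K * (21 / 1000) := by
    have h1 : (R : ℝ) * Real.log X ≤ (100 * (L * B) + 2) * A :=
      (mul_le_mul_of_nonneg_left hXA (by positivity)).trans (mul_le_mul_of_nonneg_right hR2 (by linarith))
    have h2 : ((S : ℝ) + L) * Real.log Y ≤ (100 * (L * A) + 1 + L) * B :=
      (mul_le_mul_of_nonneg_left hYB (by positivity)).trans (mul_le_mul_of_nonneg_right (by linarith) (by linarith))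
    have h3 : (100 * (L * B) + 2) * A = 100 * q + 2 * A := by rw [hq]; ring
    have h4 : (100 * (L * A) + 1 + L) * B = 100 * q + B + L * B := by rw [hq]; ring
    rw [h3] at h1
    rw [h4] at h2
    linarith
  have hexp2 : (K : ℝ) * G * (R * Real.log X + (S + L) * Real.log Y) ≤ (21 / 1000) * (K * K * G) := by
    calc (K : ℝ) * G * (R * Real.log X + (S + L) * Real.log Y) ≤ (K * G) * (K * (21 / 1000)) :=
          mul_le_mul_of_nonneg_left hexp (by positivity)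
      _ = _ := by ring
  have hmid : (K : ℝ) * L * (K + K * Real.log ℓ) ≤ (K * K * L ^ 2) / 60 := by
    have h1 : (K : ℝ) + K * Real.log ℓ = K * lam := by rw [hlam]; ring
    rw [h1]
    have h2 : lam ≤ L / 60 := by linarith
    calc (K : ℝ) * L * (K * lam) = (K * K * L) * lam := by ring
      _ ≤ (K * K * L) * (L / 60) := mul_le_mul_of_nonneg_left h2 (by positivity)
      _ = _ := by ring
  have hfac2 : (K * L : ℝ) * Real.log (K * L) ≤ (K * K * L ^ 2) / 10 := by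
    have h1 : (100 : ℝ) ≤ K * L := by
      calc (100 : ℝ) ≤ 600000 * 60 := by norm_num
        _ ≤ K * L := mul_le_mul (by linarith) hL60 (by norm_num) hK0'.le
    have h2 := log_le_tenth h1
    calc (K * L : ℝ) * Real.log (K * L) ≤ (K * L : ℝ) * ((K * L) / 10) :=
          mul_le_mul_of_nonneg_left h2 (by positivity)
      _ = _ := by ring
  have hfinal : (K * K * G : ℝ) * (669 / 1000) ≤ (K * K * L ^ 2) * (7 / 60) := by
    linarith
  have hKK : (0 : ℝ) < K * K := by positivity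
  have h8 : (K * K) * ((49 / 100) * L ^ 2) * (669 / 1000) ≤ (K * K * G : ℝ) * (669 / 1000) := by
    apply mul_le_mul_of_nonneg_right _ (by norm_num)
    exact mul_le_mul_of_nonneg_left hG3 hKK.le
  have h9 : (0 : ℝ) < K * K * L ^ 2 := by positivity
  have h10 : ((K : ℝ) * K) * ((49 / 100) * L ^ 2) * (669 / 1000) =
      (32781 / 100000) * (K * K * L ^ 2) := by ring
  linarith

/-- Fermat: `n ^ (2 (r - 1)) ≡ 1` modulo `r`. -/
theorem fermat {r n : ℕ} (hr : r.Prime) (hn : ¬ r ∣ n) :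
    (r : ℤ) ∣ ((n ^ (2 * (r - 1)) : ℕ) : ℤ) - 1 := by
  have h1 : IsCoprime (n : ℤ) (r : ℤ) := by
    rw [Nat.isCoprime_iff_coprime, Nat.coprime_comm, hr.coprime_iff_not_dvd]
    exact hn
  have h2 := Int.ModEq.pow_card_sub_one_eq_one hr h1
  have h3 := h2.pow 2
  rw [one_pow, ← pow_mul] at h3
  have h4 := Int.modEq_iff_dvd.mp h3.symm
  push_cast
  rw [mul_comm 2]
  exact h4

/-- **ARR** -/
theorem arr (hLtr : Stmt_Ltr) : Stmt_Arr := by
  refine ⟨10 ^ 9, by norm_num, ?_⟩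
  intro r X₁ X₂ Y k₀ l j V A B hr hX₁ hX₂ hY hY2 hk₀ hl hj hcop hA hB hXA₁ hXA₂ hYB hkA hlB hdvd
  have hr2 : 2 ≤ r := hr.two_le
  have hX₁0 : 1 ≤ X₁ := by
    rcases Nat.eq_zero_or_pos X₁ with h | h
    · exact absurd (by rw [h]; exact dvd_zero _) hX₁
    · exact h
  have hX₂0 : 1 ≤ X₂ := by
    rcases Nat.eq_zero_or_pos X₂ with h | h
    · exact absurd (by rw [h]; exact dvd_zero _) hX₂
    · exact h
  have hnd1 : ¬ r ∣ X₁ ^ l := fun h => hX₁ (hr.dvd_of_dvd_pow h)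
  have hnd2 : ¬ r ∣ X₂ ^ l * Y ^ k₀ := by
    intro h
    rcases (Nat.Prime.dvd_mul hr).mp h with h | h
    · exact hX₂ (hr.dvd_of_dvd_pow h)
    · exact hY (hr.dvd_of_dvd_pow h)
  obtain ⟨V', hV', hVV⟩ := hLtr r (X₁ ^ l) (X₂ ^ l * Y ^ k₀) j V hr hnd1 hnd2 hj (by
    push_cast
    exact hdvd)
  set e : ℕ := 2 * (r - 1) with he
  have he2 : 2 ≤ e := by omega
  have her : e ≤ 2 * r := by omega
  have hdvd2 : (r : ℤ) ^ V' ∣ ((X₁ ^ e : ℕ) : ℤ) ^ l - ((X₂ ^ e : ℕ) : ℤ) ^ l * ((Y ^ e : ℕ) : ℤ) ^ k₀ := by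
    have h1 : ((X₁ ^ l : ℕ) : ℤ) ^ e - ((X₂ ^ l * Y ^ k₀ : ℕ) : ℤ) ^ e =
        ((X₁ ^ e : ℕ) : ℤ) ^ l - ((X₂ ^ e : ℕ) : ℤ) ^ l * ((Y ^ e : ℕ) : ℤ) ^ k₀ := by
      push_cast
      rw [mul_pow, ← pow_mul, ← pow_mul, ← pow_mul, ← pow_mul, ← pow_mul, ← pow_mul,
        mul_comm l e, mul_comm k₀ e]
    rw [← h1]
    exact hV'
  have hl1 : (1 : ℝ) ≤ l := by exact_mod_cast hl
  have hr2R : (2 : ℝ) ≤ r := by exact_mod_cast hr2
  have hr0R : (0 : ℝ) < r := by linarith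
  have heR : (e : ℝ) ≤ 2 * r := by exact_mod_cast her
  have he0R : (0 : ℝ) ≤ e := by positivity
  set lam : ℝ := 1 + Real.log l with hlam
  have hlam1 : 1 ≤ lam := by have := Real.log_nonneg hl1; linarith
  have hlogX₁ : 0 ≤ Real.log X₁ := Real.log_nonneg (by exact_mod_cast hX₁0)
  have hlogX₂ : 0 ≤ Real.log X₂ := Real.log_nonneg (by exact_mod_cast hX₂0)
  have hlogY : 0 ≤ Real.log Y := Real.log_nonneg (by exact_mod_cast (by omega : 1 ≤ Y))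
  have hX₁R : (0 : ℝ) < X₁ := by exact_mod_cast hX₁0
  have hX₂R : (0 : ℝ) < X₂ := by exact_mod_cast hX₂0
  have hY₁ : 2 ≤ Y ^ e := by
    calc 2 ≤ Y := hY2
      _ = Y ^ 1 := (pow_one Y).symm
      _ ≤ Y ^ e := Nat.pow_le_pow_right (by omega) (by omega)
  have hrA : A ≤ r * A := le_mul_of_one_le_left (by linarith) (by linarith)
  have hrB : B ≤ r * B := le_mul_of_one_le_left (by linarith) (by linarith)
  have hmain := two_log_rat hr (X₁ := X₁ ^ e) (X₂ := X₂ ^ e) (Y := Y ^ e) (k₀ := k₀) (ℓ := l)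
    (M := V') (Nat.one_le_pow _ _ hX₁0) (Nat.one_le_pow _ _ hX₂0) hY₁ hl hcop
    (fermat hr hX₁) (fermat hr hX₂) (fermat hr hY) (4 * (r * A)) (2 * (r * B))
    (by linarith) (by linarith)
    (by
      push_cast
      rw [Real.log_mul (by positivity) (by positivity), Real.log_pow, Real.log_pow]
      have h1 : (e : ℝ) * Real.log X₁ ≤ 2 * r * A := mul_le_mul heR hXA₁ hlogX₁ (by positivity)
      have h2 : (e : ℝ) * Real.log X₂ ≤ 2 * r * A := mul_le_mul heR hXA₂ hlogX₂ (by positivity)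
      linarith)
    (by
      rw [Nat.cast_pow, Real.log_pow]
      have h1 : (e : ℝ) * Real.log Y ≤ 2 * r * B := mul_le_mul heR hYB hlogY (by positivity)
      linarith)
    (by
      have h1 : A * l ≤ 4 * (r * A) * l := mul_le_mul_of_nonneg_right (by linarith) (by linarith)
      linarith)
    (by
      have h1 : 6200 * (2 * (r * B)) * lam = 12400 * (r * B * lam) := by ring
      have h2 : (10 : ℝ) ^ 9 * r * B * lam = 10 ^ 9 * (r * B * lam) := by ring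
      have h3 : 0 ≤ r * B * lam := by positivity
      rw [h1]
      rw [h2] at hlB
      linarith)
    hdvd2
  -- conclusion
  have hjR : (1 : ℝ) ≤ j := by exact_mod_cast hj
  have h1 : (V : ℝ) * Real.log r ≤ Real.log j + V' * Real.log r := by
    have h2 : ((r ^ V : ℕ) : ℝ) ≤ ((j * r ^ V' : ℕ) : ℝ) := by exact_mod_cast hVV
    push_cast at h2
    have h3 := Real.log_le_log (by positivity) h2
    rw [Real.log_pow, Real.log_mul (by positivity) (by positivity), Real.log_pow] at h3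
    exact h3
  have hlogr : Real.log r ≤ r := by
    have := Real.log_le_sub_one_of_pos hr0R
    linarith
  have hlogr0 : 0 ≤ Real.log r := Real.log_nonneg (by linarith)
  have h4 : (V' : ℝ) * Real.log r ≤ (4 * 10 ^ 7 * (4 * (r * A)) * (2 * (r * B)) * lam ^ 2) * r :=
    mul_le_mul hmain hlogr hlogr0 (by positivity)
  have h5 : (4 * 10 ^ 7 * (4 * (r * A)) * (2 * (r * B)) * lam ^ 2) * r =
      (32 * 10 ^ 7) * (r ^ 3 * (A * B) * lam ^ 2) := by ring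
  have h6 : (10 : ℝ) ^ 9 * r ^ 3 * (A * B) * lam ^ 2 = 10 ^ 9 * (r ^ 3 * (A * B) * lam ^ 2) := by ring
  have h7 : 0 ≤ (r : ℝ) ^ 3 * (A * B) * lam ^ 2 := by positivity
  rw [h6]
  rw [h5] at h4
  linarith

end Pool.Agent.Work.MP_2738db_nt_Y.helper44
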