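import Pool.Agent.Work.MP_2738db_nt_Y.Interface2

/-!
# Block GAP22: the gap principle for squares
-/

set_option autoImplicit false

namespace Pool.Agent.Work.MP_2738db_nt_Y.helper44

open Finset Real

/-- distinct positive integers have distant logarithms -/
theorem log_sub_ge {a b : ℕ} (hb : 1 ≤ b) (hab : b < a) :
    1 / (a : ℝ) ≤ Real.log a - Real.log b := by
  have ha' : (0:ℝ) < a := by exact_mod_cast (by omega : 0 < a)
  have hb' : (0:ℝ) < b := by exact_mod_cast hb
  have h3 := Real.one_sub_inv_le_log_of_pos (div_pos ha' hb')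
  rw [Real.log_div ha'.ne' hb'.ne'] at h3
  have h4 : ((b : ℝ) + 1) ≤ a := by exact_mod_cast hab
  have h5 : 1 / (a : ℝ) ≤ 1 - ((a : ℝ) / b)⁻¹ := by
    rw [inv_div, div_le_iff₀ ha', sub_mul, one_mul, div_mul_cancel₀ _ ha'.ne']
    linarith
  linarith

/-- `log ((1 + e) / (1 - e)) ≤ 3 e` -/
theorem log_ratio {e : ℝ} (he0 : 0 < e) (he : e ≤ 1 / 2) :
    Real.log (1 + e) - Real.log (1 - e) ≤ 3 * e ∧ 0 ≤ Real.log (1 + e) - Real.log (1 - e) := by
  have h1 : Real.log (1 + e) ≤ e := by
    have := Real.log_le_sub_one_of_pos (by linarith : 0 < 1 + e)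
    linarith
  have h1' : 0 ≤ Real.log (1 + e) := Real.log_nonneg (by linarith)
  have h2 : Real.log (1 - e) ≤ 0 := Real.log_nonpos (by linarith) (by linarith)
  have h3 : -(2 * e) ≤ Real.log (1 - e) := by
    have h1 := Real.one_sub_inv_le_log_of_pos (by linarith : 0 < 1 - e)
    have h2 : -(2 * e) ≤ 1 - (1 - e)⁻¹ := by
      have h3 : (1 - e)⁻¹ ≤ 1 + 2 * e := by
        rw [inv_le_iff_one_le_mul₀ (by linarith)]
        nlinarith
      linarith
    linarith
  constructor <;> linarith

/-- the real part and imaginary part of the square -/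
theorem im_two_mul (z : GaussianInt) (k : ℕ) : (z ^ (2 * k)).im = 2 * ((z ^ k).re * (z ^ k).im) := by
  have h : z ^ (2 * k) = z ^ k * z ^ k := by rw [two_mul, pow_add]
  rw [h, Zsqrtd.im_mul]
  ring

theorem plus (C₀ : ℝ) (hC₀ : 1 ≤ C₀)
    (hArg : ∀ (u v : ℤ) (k : ℕ), IsCoprime u v → u ≠ 0 → v ≠ 0 → Odd (u ^ 2 + v ^ 2) →
      1 ≤ k →
      Real.exp (k / 2 * Real.log ((u : ℝ) ^ 2 + (v : ℝ) ^ 2) -
          C₀ * Real.log ((u : ℝ) ^ 2 + (v : ℝ) ^ 2) * (1 + Real.log k) ^ 2) ≤
        |((((⟨u, v⟩ : GaussianInt) ^ k).im : ℤ) : ℝ)|)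
    (hGfac : Stmt_Gfac) (k A B c : ℕ) (hk : 2 ≤ k) (hB : 1 ≤ B) (hBA : B < A)
    (hcop : Nat.Coprime A B) (hc : 2 ≤ c) (heq : A ^ 2 + B ^ 2 = c ^ k) :
    k * Real.log c - 2 * Real.log B ≤
      2 * C₀ * Real.log c * (1 + Real.log 2 + Real.log k) ^ 2 + 2 * Real.log 2 := by
  have hA : 1 ≤ A := by omega
  have hA0 : (0:ℝ) < A := by exact_mod_cast hA
  have hB0 : (0:ℝ) < B := by exact_mod_cast hB
  have hc0 : (0:ℝ) < c := by exact_mod_cast (by omega : 0 < c)
  have hk0 : (0:ℝ) < k := by exact_mod_cast (by omega : 0 < k)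
  have hlogc : 0 ≤ Real.log c := Real.log_nonneg (by exact_mod_cast (by omega : 1 ≤ c))
  have hlogk : 0 ≤ Real.log k := Real.log_nonneg (by exact_mod_cast (by omega : 1 ≤ k))
  have hlog2 : 0 < Real.log 2 := Real.log_pos (by norm_num)
  obtain ⟨u, v, huv, hu, hv, hodd, hcuv, hcase⟩ := hGfac A B c k hcop hA hB hk heq
  have hcR : (u : ℝ) ^ 2 + (v : ℝ) ^ 2 = c := by exact_mod_cast hcuv
  rcases hcase with ⟨-, hBim⟩ | ⟨hAim, hBre⟩
  · have h1 := hArg u v k huv hu hv hodd (by omega)
    have h3 : |((((⟨u, v⟩ : GaussianInt) ^ k).im : ℤ) : ℝ)| = (B : ℝ) := by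
      have : ((B : ℤ) : ℝ) = ((|((⟨u, v⟩ : GaussianInt) ^ k).im| : ℤ) : ℝ) := by rw [hBim]
      rw [Int.cast_abs] at this
      rw [← this]
      simp
    rw [h3, hcR] at h1
    have h4 := Real.log_le_log (Real.exp_pos _) h1
    rw [Real.log_exp] at h4
    have h5 : (1 + Real.log k) ^ 2 ≤ (1 + Real.log 2 + Real.log k) ^ 2 :=
      pow_le_pow_left₀ (by positivity) (by linarith) 2
    have h6 : C₀ * Real.log c * (1 + Real.log k) ^ 2 ≤
        C₀ * Real.log c * (1 + Real.log 2 + Real.log k) ^ 2 :=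
      mul_le_mul_of_nonneg_left h5 (by positivity)
    linarith
  · have h1 := hArg u v (2 * k) huv hu hv hodd (by omega)
    have h3 : |((((⟨u, v⟩ : GaussianInt) ^ (2 * k)).im : ℤ) : ℝ)| = 2 * ((B : ℝ) * A) := by
      rw [im_two_mul]
      have e1 : ((B : ℤ) : ℝ) = ((|((⟨u, v⟩ : GaussianInt) ^ k).re| : ℤ) : ℝ) := by rw [hBre]
      have e2 : ((A : ℤ) : ℝ) = ((|((⟨u, v⟩ : GaussianInt) ^ k).im| : ℤ) : ℝ) := by rw [hAim]
      rw [Int.cast_abs] at e1 e2
      have e3 : (B : ℝ) = ((B : ℤ) : ℝ) := by simp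
      have e4 : (A : ℝ) = ((A : ℤ) : ℝ) := by simp
      rw [e3, e4, e1, e2]
      push_cast
      rw [abs_mul, abs_mul, abs_two]
    rw [h3, hcR] at h1
    have h4 := Real.log_le_log (Real.exp_pos _) h1
    rw [Real.log_exp, Real.log_mul (by norm_num) (by positivity), Real.log_mul hB0.ne' hA0.ne'] at h4
    have h5 : Real.log ((2 * k : ℕ) : ℝ) = Real.log 2 + Real.log k := by
      push_cast
      rw [Real.log_mul (by norm_num) hk0.ne']
    have h6 : 2 * Real.log A ≤ k * Real.log c := by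
      have h7 : (A : ℝ) ^ 2 ≤ (c : ℝ) ^ k := by
        have : A ^ 2 ≤ c ^ k := by rw [← heq]; exact Nat.le_add_right _ _
        exact_mod_cast this
      have h8 := Real.log_le_log (by positivity) h7
      rw [Real.log_pow, Real.log_pow] at h8
      exact_mod_cast h8
    rw [h5] at h4
    have h9 : ((2 * k : ℕ) : ℝ) / 2 = k := by push_cast; ring
    rw [h9, ← add_assoc] at h4
    linarith

theorem minus (C₁ : ℝ) (hC₁ : 1 ≤ C₁)
    (hArq : ∀ (X₁ X₂ Y k₀ l : ℕ) (A B : ℝ), 1 ≤ X₁ → 1 ≤ X₂ → 2 ≤ Y → 1 ≤ k₀ → 1 ≤ l →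
      Nat.Coprime l k₀ → 1 ≤ A → 1 ≤ B → Real.log X₁ ≤ A → Real.log X₂ ≤ A → Real.log Y ≤ B →
      (k₀ : ℝ) ≤ A * l → C₁ * B * (1 + Real.log l) ≤ l →
      Real.exp (-(C₁ * (A * B) * (1 + Real.log l) ^ 2)) ≤
        |l * (Real.log X₁ - Real.log X₂) - k₀ * Real.log Y|)
    (k U v : ℕ) (M e : ℝ) (hk : 3 ≤ k) (hU : 1 ≤ U) (hv : 1 ≤ v)
    (he0 : 0 < e) (hΔ : |k * (Real.log U - Real.log v) - (k - 2) * Real.log 2| ≤ 3 * e)
    (hlogU : k * Real.log U ≤ M) (hlogv : k * Real.log v ≤ M)
    (hM : k * Real.log 2 ≤ M)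
    (hreg : 20 * C₁ * (Real.log k ^ 3) ≤ k) :
    -(2 * Real.log e) ≤ 25 * C₁ * (M / k) * Real.log k ^ 2 + 4 * Real.log 2 := by
  have hlog2 := Real.log_two_gt_d9
  have hlog2' := Real.log_two_lt_d9
  set L := Real.log k with hL
  have hkpos : (0:ℝ) < k := by exact_mod_cast (by omega : 0 < k)
  have hk2 : (2:ℝ) ≤ k := by exact_mod_cast (by omega : 2 ≤ k)
  have hL2 : Real.log 2 ≤ L := Real.log_le_log (by norm_num) hk2
  have hL069 : 0.69 ≤ L := by linarith
  have hLpos : 0 < L := by linarith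
  have hMpos : 0 < M := lt_of_lt_of_le (by positivity) hM
  have hMk : Real.log 2 ≤ M / k := by rw [le_div_iff₀ hkpos]; linarith
  set g := Nat.gcd k (k - 2) with hg
  have hgpos : 0 < g := Nat.gcd_pos_of_pos_left _ (by omega)
  have hg2 : g ≤ 2 := by
    have h1 : g ∣ k := Nat.gcd_dvd_left _ _
    have h2 : g ∣ k - 2 := Nat.gcd_dvd_right _ _
    have h3 : g ∣ k - (k - 2) := Nat.dvd_sub h1 h2
    have h4 : k - (k - 2) = 2 := by omega
    rw [h4] at h3
    exact Nat.le_of_dvd (by norm_num) h3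
  obtain ⟨l, hl⟩ : g ∣ k := Nat.gcd_dvd_left k (k - 2)
  obtain ⟨k₀, hk₀⟩ : g ∣ k - 2 := Nat.gcd_dvd_right k (k - 2)
  have hlpos : 1 ≤ l := by
    rcases Nat.eq_zero_or_pos l with h | h
    · rw [h, mul_zero] at hl; omega
    · exact h
  have hk₀pos : 1 ≤ k₀ := by
    rcases Nat.eq_zero_or_pos k₀ with h | h
    · rw [h, mul_zero] at hk₀; omega
    · exact h
  have hcop : Nat.Coprime l k₀ := by
    have h1 : k / g = l := by rw [hl]; exact Nat.mul_div_cancel_left _ hgpos
    have h2 : (k - 2) / g = k₀ := by rw [hk₀]; exact Nat.mul_div_cancel_left _ hgpos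
    rw [← h1, ← h2]
    exact Nat.coprime_div_gcd_div_gcd hgpos
  have hgR : (1:ℝ) ≤ g := by exact_mod_cast hgpos
  have hgR2 : (g:ℝ) ≤ 2 := by exact_mod_cast hg2
  have hlR : (1:ℝ) ≤ l := by exact_mod_cast hlpos
  have hkl : (k : ℝ) = g * l := by exact_mod_cast hl
  have hk2cast : ((k - 2 : ℕ) : ℝ) = (k : ℝ) - 2 := by
    rw [Nat.cast_sub (by omega)]; norm_num
  have hpk₀ : (k : ℝ) - 2 = g * k₀ := by
    rw [← hk2cast, hk₀]; push_cast; ring
  have hlk : (l : ℝ) ≤ k := by
    rw [hkl]
    exact le_mul_of_one_le_left (by linarith) hgR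
  have hkl2 : (k : ℝ) ≤ 2 * l := by
    rw [hkl]
    exact mul_le_mul_of_nonneg_right hgR2 (by linarith)
  have hlogl : Real.log l ≤ L := Real.log_le_log (by linarith) hlk
  have hlogl0 : 0 ≤ Real.log l := Real.log_nonneg hlR
  have hLL : 1 + Real.log l ≤ 2.5 * L := by linarith
  have hA1 : 1 ≤ 2 * M / k := by
    rw [mul_div_assoc]
    linarith
  have hk₀l : (k₀ : ℝ) ≤ l := by
    have h1 : (g : ℝ) * k₀ ≤ g * l := by rw [← hkl, ← hpk₀]; linarith
    exact le_of_mul_le_mul_left h1 (by linarith)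
  have hAL : (k₀ : ℝ) ≤ 2 * M / k * l :=
    hk₀l.trans (le_mul_of_one_le_left (by linarith) hA1)
  have hlogU' : Real.log U ≤ 2 * M / k := by
    rw [le_div_iff₀ hkpos]; linarith
  have hlogv' : Real.log v ≤ 2 * M / k := by
    rw [le_div_iff₀ hkpos]; linarith
  have hcond : C₁ * 1 * (1 + Real.log l) ≤ l := by
    have hLsq : 0.25 ≤ L ^ 2 := by
      have : (0.69 : ℝ) ^ 2 ≤ L ^ 2 := pow_le_pow_left₀ (by norm_num) hL069 2
      norm_num at this ⊢
      linarith
    have h1 : 2.5 * L ≤ 10 * L ^ 3 := by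
      have h2 : 10 * L ^ 3 = 10 * L * L ^ 2 := by ring
      rw [h2]
      have h3 := mul_le_mul_of_nonneg_left hLsq (show 0 ≤ 10 * L by linarith)
      linarith
    have h2 : C₁ * (1 + Real.log l) ≤ C₁ * (10 * L ^ 3) :=
      mul_le_mul_of_nonneg_left (hLL.trans h1) (by linarith)
    rw [mul_one]
    linarith
  have hq := hArq U v 2 k₀ l (2 * M / k) 1 hU hv le_rfl hk₀pos hlpos hcop hA1 le_rfl hlogU' hlogv'
    (by push_cast; linarith) hAL hcond
  have hval : (g : ℝ) * (l * (Real.log U - Real.log v) - k₀ * Real.log 2) =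
      k * (Real.log U - Real.log v) - (k - 2) * Real.log 2 := by
    rw [hpk₀, hkl]; ring
  have habs : |l * (Real.log U - Real.log v) - k₀ * Real.log ((2 : ℕ) : ℝ)| ≤ 3 * e := by
    have h0 : ((2 : ℕ) : ℝ) = 2 := by norm_num
    rw [h0]
    have h1 : (g : ℝ) * |l * (Real.log U - Real.log v) - k₀ * Real.log 2| ≤ 3 * e := by
      have e1 : (g : ℝ) * |l * (Real.log U - Real.log v) - k₀ * Real.log 2| =
          |(g : ℝ) * (l * (Real.log U - Real.log v) - k₀ * Real.log 2)| := by
        rw [abs_mul, abs_of_pos (by linarith : (0:ℝ) < g)]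
      rw [e1, hval]
      exact hΔ
    have h2 := abs_nonneg (l * (Real.log U - Real.log v) - k₀ * Real.log 2)
    exact (le_mul_of_one_le_left h2 hgR).trans h1
  have h9 := hq.trans habs
  have h10 := Real.log_le_log (Real.exp_pos _) h9
  rw [Real.log_exp, Real.log_mul (by norm_num) he0.ne'] at h10
  have h11 : (1 + Real.log l) ^ 2 ≤ 6.25 * L ^ 2 := by
    calc (1 + Real.log l) ^ 2 ≤ (2.5 * L) ^ 2 := pow_le_pow_left₀ (by linarith) hLL 2
      _ = _ := by ring
  have h12 : C₁ * (2 * M / k * 1) * (1 + Real.log l) ^ 2 ≤ C₁ * (2 * M / k * 1) * (6.25 * L ^ 2) :=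
    mul_le_mul_of_nonneg_left h11 (by positivity)
  have h13 : C₁ * (2 * M / k * 1) * (6.25 * L ^ 2) = 12.5 * C₁ * (M / k) * L ^ 2 := by ring
  have h14 : Real.log 3 ≤ 2 * Real.log 2 := by
    have : Real.log 3 ≤ Real.log (2 ^ 2) := Real.log_le_log (by norm_num) (by norm_num)
    rw [Real.log_pow] at this
    push_cast at this
    exact this
  linarith

/-- **GAP22** -/
theorem gap22 (hGfac : Stmt_Gfac) (hArg : Stmt_Arg) (hSqf : Stmt_Sqf) (hArq : Stmt_Arq) :
    Stmt_Gap22 := by
  obtain ⟨C₀, hC₀, hArg⟩ := hArg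
  obtain ⟨C₁, hC₁, hArq⟩ := hArq
  refine ⟨60 * (C₀ + C₁), by linarith, ?_⟩
  intro k A B c M hk hB hBA hcop hc hcase
  have hlog2 := Real.log_two_gt_d9
  have hlog2' := Real.log_two_lt_d9
  have hA : 1 ≤ A := by omega
  have hA0 : (0:ℝ) < A := by exact_mod_cast hA
  have hB0 : (0:ℝ) < B := by exact_mod_cast hB
  have hBA' : (B : ℝ) < A := by exact_mod_cast hBA
  have hkpos : (0:ℝ) < k := by exact_mod_cast (by omega : 0 < k)
  have hk2 : (2:ℝ) ≤ k := by exact_mod_cast hk
  set L := Real.log k with hL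
  have hL2 : Real.log 2 ≤ L := Real.log_le_log (by norm_num) hk2
  have hL069 : 0.69 ≤ L := by linarith
  have hLpos : 0 < L := by linarith
  have hL3 : 1 / 4 ≤ L ^ 3 := by
    have : (0.69 : ℝ) ^ 3 ≤ L ^ 3 := pow_le_pow_left₀ (by norm_num) (by linarith) 3
    norm_num at this ⊢
    linarith
  have hL23 : L ^ 2 ≤ 1.45 * L ^ 3 := by
    have h1 : L ^ 3 = L ^ 2 * L := by ring
    have h2 := mul_le_mul_of_nonneg_left hL069 (sq_nonneg L)
    rw [h1]
    linarith [sq_nonneg L]
  have hc2 : 2 ≤ c := by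
    by_contra hlt
    have hc1 : c = 1 := by omega
    rw [hc1, one_pow] at hcase
    rcases hcase with ⟨h, -⟩ | ⟨h, -⟩
    · have h1 := Nat.one_le_pow 2 A hA
      have h2 := Nat.one_le_pow 2 B hB
      omega
    · nlinarith
  have hlogB : 0 ≤ Real.log B := Real.log_nonneg (by exact_mod_cast hB)
  have hc0 : (0:ℝ) < c := by exact_mod_cast (by omega : 0 < c)
  have hlogc : Real.log 2 ≤ Real.log c := Real.log_le_log (by norm_num) (by exact_mod_cast hc2)
  -- the main bound in terms of `M / k`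
  suffices hmain : 0 ≤ M / k ∧ (M - 2 * Real.log B ≤ (24.5 * C₀ * L ^ 2 + 2) * (M / k) ∨
      M - 2 * Real.log B ≤ 20 * C₁ * (L ^ 3 / k) * M ∨
      M - 2 * Real.log B ≤ (25 * C₁ * L ^ 2 + 4) * (M / k)) by
    obtain ⟨hMk, hmain⟩ := hmain
    have e0 : 60 * (C₀ + C₁) * (L ^ 3 / k) * M = (60 * (C₀ + C₁) * L ^ 3) * (M / k) := by ring
    rw [e0]
    have hL3' : 0 < L ^ 3 := by positivity
    have hC0L : 1 * L ^ 3 ≤ C₀ * L ^ 3 := mul_le_mul_of_nonneg_right hC₀ hL3'.le
    have hC1L : 1 * L ^ 3 ≤ C₁ * L ^ 3 := mul_le_mul_of_nonneg_right hC₁ hL3'.le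
    have hC0L2 : C₀ * L ^ 2 ≤ C₀ * (1.45 * L ^ 3) := mul_le_mul_of_nonneg_left hL23 (by linarith)
    have hC1L2 : C₁ * L ^ 2 ≤ C₁ * (1.45 * L ^ 3) := mul_le_mul_of_nonneg_left hL23 (by linarith)
    rcases hmain with h | h | h
    · refine h.trans (mul_le_mul_of_nonneg_right ?_ hMk)
      linarith
    · have e1 : 20 * C₁ * (L ^ 3 / k) * M = (20 * C₁ * L ^ 3) * (M / k) := by ring
      rw [e1] at h
      refine h.trans (mul_le_mul_of_nonneg_right ?_ hMk)
      linarith
    · refine h.trans (mul_le_mul_of_nonneg_right ?_ hMk)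
      linarith
  rcases hcase with ⟨heq, hMeq⟩ | ⟨heq, hMeq⟩
  · -- the plus case
    have hMk : M = k * Real.log c := by
      rw [hMeq, Real.log_pow]
    have hMk' : M / k = Real.log c := by rw [hMk]; field_simp
    rw [hMk']
    refine ⟨by linarith, Or.inl ?_⟩
    have h1 := plus C₀ hC₀ hArg hGfac k A B c hk hB hBA hcop hc2 heq
    rw [hMk]
    have h2 : 1 + Real.log 2 + L ≤ 3.5 * L := by linarith
    have h3 : (1 + Real.log 2 + L) ^ 2 ≤ 12.25 * L ^ 2 := by
      calc (1 + Real.log 2 + L) ^ 2 ≤ (3.5 * L) ^ 2 := pow_le_pow_left₀ (by linarith) h2 2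
        _ = _ := by ring
    have h4 : 2 * C₀ * Real.log c * (1 + Real.log 2 + L) ^ 2 ≤
        2 * C₀ * Real.log c * (12.25 * L ^ 2) := by
      apply mul_le_mul_of_nonneg_left h3
      have : 0 ≤ Real.log c := by linarith
      positivity
    have h5 : 2 * C₀ * Real.log c * (12.25 * L ^ 2) = 24.5 * C₀ * L ^ 2 * Real.log c := by ring
    rw [h5] at h4
    linarith
  · -- the minus case
    have hMk : M = 2 * Real.log A := by
      rw [hMeq, Real.log_pow]; norm_num
    have hckA : (c : ℝ) ^ k ≤ (A : ℝ) ^ 2 := by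
      have : c ^ k ≤ A ^ 2 := by omega
      exact_mod_cast this
    have hMc : k * Real.log c ≤ M := by
      have h1 := Real.log_le_log (by positivity) hckA
      rw [Real.log_pow, Real.log_pow] at h1
      rw [hMk]
      exact_mod_cast h1
    have hM : k * Real.log 2 ≤ M := by
      have := mul_le_mul_of_nonneg_left hlogc hkpos.le
      linarith
    have hMpos : 0 < M := lt_of_lt_of_le (by positivity) hM
    have hMk2 : Real.log 2 ≤ M / k := by rw [le_div_iff₀ hkpos]; linarith
    have hMk0 : 0 < M / k := by linarith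
    refine ⟨hMk0.le, ?_⟩
    set e : ℝ := B / A with he
    have he0 : 0 < e := by positivity
    have he1 : e < 1 := (div_lt_one hA0).mpr hBA'
    have hloge : Real.log e = Real.log B - Real.log A := Real.log_div hB0.ne' hA0.ne'
    have hD : M - 2 * Real.log B = -(2 * Real.log e) := by rw [hMk, hloge]; ring
    rcases lt_or_ge (k : ℝ) (20 * C₁ * (L ^ 3)) with hreg | hreg
    · -- trivial range
      refine Or.inr (Or.inl ?_)
      have h1 : (1:ℝ) ≤ 20 * C₁ * (L ^ 3 / k) := by
        have : (1:ℝ) ≤ 20 * C₁ * L ^ 3 / k := (one_le_div hkpos).mpr hreg.le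
        calc (1:ℝ) ≤ 20 * C₁ * L ^ 3 / k := this
          _ = _ := by ring
      have h2 := mul_le_mul_of_nonneg_right h1 hMpos.le
      linarith
    · refine Or.inr (Or.inr ?_)
      rw [hD]
      have hfin : ∀ x : ℝ, x ≤ 4 * (M / k) → x ≤ (25 * C₁ * L ^ 2 + 4) * (M / k) := by
        intro x hx
        have h1 : 0 ≤ 25 * C₁ * L ^ 2 * (M / k) := by positivity
        have h2 : (25 * C₁ * L ^ 2 + 4) * (M / k) = 25 * C₁ * L ^ 2 * (M / k) + 4 * (M / k) := by
          ring
        linarith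
      rcases lt_or_ge (1 / 2) e with he2 | he2
      · have h1 : -Real.log e ≤ Real.log 2 := by
          have := Real.log_le_log (by norm_num) he2.le
          rw [one_div, Real.log_inv] at this
          linarith
        exact hfin _ (by linarith)
      · have hAe : (A : ℝ) * e = B := by rw [he]; field_simp
        have hplus : (A : ℝ) + B = A * (1 + e) := by rw [mul_add, hAe]; ring
        have hminus : (A : ℝ) - B = A * (1 - e) := by rw [mul_sub, hAe]; ring
        have hlplus : Real.log ((A : ℝ) + B) = Real.log A + Real.log (1 + e) := by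
          rw [hplus, Real.log_mul hA0.ne' (by positivity)]
        have hlminus : Real.log ((A : ℝ) - B) = Real.log A + Real.log (1 - e) := by
          rw [hminus, Real.log_mul hA0.ne' (by linarith)]
        obtain ⟨hr1, hr2⟩ := log_ratio he0 he2
        have hlp2 : Real.log (1 + e) ≤ Real.log 2 :=
          Real.log_le_log (by positivity) (by linarith)
        have hlm0 : Real.log (1 - e) ≤ 0 := Real.log_nonpos (by linarith) (by linarith)
        have hk3 : 3 ≤ k := by
          by_contra hlt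
          have : k = 2 := by omega
          have h1 : (k : ℝ) = 2 := by exact_mod_cast this
          rw [h1] at hreg
          have h2 : 1 / 4 * 20 * 1 ≤ L ^ 3 * 20 * C₁ := by
            apply mul_le_mul _ hC₁ (by norm_num) (by positivity)
            linarith
          linarith
        have hk3R : (3:ℝ) ≤ k := by exact_mod_cast hk3
        rcases hSqf A B c k hcop hB hBA hk heq with
          ⟨U, v, hU1, hUv, hAU, hAv⟩ | ⟨U, v, hU1, hv1, hcase2⟩
        · -- case 1
          have hU0 : (0:ℝ) < U := by exact_mod_cast hU1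
          have hv0 : (0:ℝ) < v := by exact_mod_cast (by omega : 0 < v)
          have e1 : (A : ℝ) - B = (U : ℝ) ^ k := by
            have : (A : ℝ) = B + (U : ℝ) ^ k := by exact_mod_cast hAU
            linarith
          have e2 : (A : ℝ) + B = (v : ℝ) ^ k := by exact_mod_cast hAv
          rw [e1, Real.log_pow] at hlminus
          rw [e2, Real.log_pow] at hlplus
          have h1 := log_sub_ge hU1 hUv
          have h2 : (k : ℝ) * (1 / v) ≤ 3 * e := by
            have h3 := mul_le_mul_of_nonneg_left h1 hkpos.le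
            have h4 : (k : ℝ) * (Real.log v - Real.log U) =
              Real.log (1 + e) - Real.log (1 - e) := by
              rw [mul_sub, hlplus, hlminus]; ring
            linarith
          have h5 : 1 / (v : ℝ) ≤ e := by
            have h6 : 3 * (1 / (v : ℝ)) ≤ k * (1 / v) :=
              mul_le_mul_of_nonneg_right hk3R (by positivity)
            linarith
          have h7 := Real.log_le_log (by positivity) h5
          rw [one_div, Real.log_inv] at h7
          have hA2 : Real.log 2 ≤ Real.log A :=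
            Real.log_le_log (by norm_num) (by exact_mod_cast (by omega : 2 ≤ A))
          have h8 : Real.log v ≤ M / k := by
            rw [le_div_iff₀ hkpos, mul_comm, hlplus]
            linarith
          exact hfin _ (by linarith)
        · have hU0 : (0:ℝ) < U := by exact_mod_cast hU1
          have hv0 : (0:ℝ) < v := by exact_mod_cast hv1
          have hlogU0 : 0 ≤ Real.log U := Real.log_nonneg (by exact_mod_cast hU1)
          have hlogv0 : 0 ≤ Real.log v := Real.log_nonneg (by exact_mod_cast hv1)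
          have hk1cast : ((k - 1 : ℕ) : ℝ) = (k : ℝ) - 1 := by
            rw [Nat.cast_sub (by omega)]; norm_num
          have hl1 : Real.log (2 * (U : ℝ) ^ k) = Real.log 2 + k * Real.log U := by
            rw [Real.log_mul (by norm_num) (by positivity), Real.log_pow]
          have hl2 : Real.log (2 ^ (k - 1) * (v : ℝ) ^ k) =
              (k - 1) * Real.log 2 + k * Real.log v := by
            rw [Real.log_mul (by positivity) (by positivity), Real.log_pow, Real.log_pow, hk1cast]
          have hk12 : Real.log 2 ≤ (k - 1) * Real.log 2 :=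
            le_mul_of_one_le_left (by linarith) (by linarith)
          obtain ⟨hΔ, hlU, hlv⟩ : |k * (Real.log U - Real.log v) - (k - 2) * Real.log 2| ≤ 3 * e ∧
              k * Real.log U ≤ M ∧ k * Real.log v ≤ M := by
            rcases hcase2 with ⟨h1, h2⟩ | ⟨h1, h2⟩
            · have e1 : (A : ℝ) - B = 2 * (U : ℝ) ^ k := by
                have : (A : ℝ) = B + 2 * (U : ℝ) ^ k := by exact_mod_cast h1
                linarith
              have e2 : (A : ℝ) + B = 2 ^ (k - 1) * (v : ℝ) ^ k := by exact_mod_cast h2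
              rw [e1, hl1] at hlminus
              rw [e2, hl2] at hlplus
              refine ⟨?_, by linarith, by linarith⟩
              have e3 : k * (Real.log U - Real.log v) - (k - 2) * Real.log 2 =
                -(Real.log (1 + e) - Real.log (1 - e)) := by
                linarith
              rw [e3, abs_neg, abs_of_nonneg hr2]
              exact hr1
            · have e1 : (A : ℝ) - B = 2 ^ (k - 1) * (v : ℝ) ^ k := by
                have : (A : ℝ) = B + 2 ^ (k - 1) * (v : ℝ) ^ k := by exact_mod_cast h1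
                linarith
              have e2 : (A : ℝ) + B = 2 * (U : ℝ) ^ k := by exact_mod_cast h2
              rw [e1, hl2] at hlminus
              rw [e2, hl1] at hlplus
              refine ⟨?_, by linarith, by linarith⟩
              have e3 : k * (Real.log U - Real.log v) - (k - 2) * Real.log 2 =
                Real.log (1 + e) - Real.log (1 - e) := by
                linarith
              rw [e3, abs_of_nonneg hr2]
              exact hr1
          have h1 := minus C₁ hC₁ hArq k U v M e hk3 hU1 hv1 he0 hΔ hlU hlv hM hreg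
          rw [← hL] at h1
          have h2 : (25 * C₁ * L ^ 2 + 4) * (M / k) = 25 * C₁ * (M / k) * L ^ 2 + 4 * (M / k) := by
            ring
          rw [h2]
          linarith

end Pool.Agent.Work.MP_2738db_nt_Y.helper44
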